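import Pool.Agent.OneSeq.Defs

/-!
# Almost sure convergence of the variation: one explicit sequence of scales is enough
-/

open Filter Topology MeasureTheory Set

namespace Pool.Agent.OneSeq

/-- One-sided power inequality (Bernoulli). -/
lemma pow_sub_le {α a b M : ℝ} (hα : 1 ≤ α) (hb : 0 ≤ b) (hba : b ≤ a) (haM : a ≤ M) :
    a ^ α - b ^ α ≤ α * M ^ (α - 1) * (a - b) := by
  rcases eq_or_lt_of_le (hb.trans hba) with ha | ha
  · have : b = 0 := le_antisymm (by rw [ha]; exact hba) hb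
    subst this
    simp [← ha]
  · have h1 := one_add_mul_self_le_rpow_one_add (s := b / a - 1) (by
      have : 0 ≤ b / a := by positivity
      linarith) hα
    have h2 : 1 + (b / a - 1) = b / a := by ring
    rw [h2, Real.div_rpow hb ha.le] at h1
    have h3 : 0 < a ^ α := Real.rpow_pos_of_pos ha _
    rw [le_div_iff₀ h3] at h1
    have h4 : a ^ α = a ^ (α - 1) * a := by
      rw [← Real.rpow_add_one ha.ne']; congr 1; ring
    have h5 : a ^ (α - 1) ≤ M ^ (α - 1) := Real.rpow_le_rpow ha.le haM (by linarith)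
    have h6 : (1 + α * (b / a - 1)) * a ^ α = a ^ α - α * a ^ (α - 1) * (a - b) := by
      rw [h4]; field_simp; ring
    rw [h6] at h1
    have h7 : α * a ^ (α - 1) * (a - b) ≤ α * M ^ (α - 1) * (a - b) := by
      apply mul_le_mul_of_nonneg_right _ (by linarith)
      exact mul_le_mul_of_nonneg_left h5 (by linarith)
    linarith

lemma abs_pow_sub_le {α a b M : ℝ} (hα : 1 ≤ α) (ha : 0 ≤ a) (hb : 0 ≤ b) (haM : a ≤ M)
    (hbM : b ≤ M) : |a ^ α - b ^ α| ≤ α * M ^ (α - 1) * |a - b| := by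
  rcases le_total b a with h | h
  · rw [abs_of_nonneg (sub_nonneg.2 (Real.rpow_le_rpow hb h (by linarith))),
      abs_of_nonneg (sub_nonneg.2 h)]
    exact pow_sub_le hα hb h haM
  · rw [abs_sub_comm, abs_sub_comm a b,
      abs_of_nonneg (sub_nonneg.2 (Real.rpow_le_rpow ha h (by linarith))),
      abs_of_nonneg (sub_nonneg.2 h)]
    exact pow_sub_le hα ha h hbM

/-- Comparison of the variations at two neighbouring scales. -/
lemma cmp {α h C : ℝ} (hα : 1 ≤ α) (hh : 0 < h) (hC : 0 ≤ C) {f : ℝ → ℝ}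
    (hf : ∀ s ∈ Icc (0 : ℝ) 1, ∀ t ∈ Icc (0 : ℝ) 1, |f s - f t| ≤ C * |s - t| ^ h)
    {ε ε' : ℝ} (h0 : 0 < ε') (h1 : ε' ≤ ε) :
    |V α f ε' - V α f ε| ≤
      1 / ε * (α * (C * ε ^ h) ^ (α - 1) * (2 * C * ((ε - ε') / ε) ^ h)) +
        (1 / ε' - 1 / ε + 1) * (C * ε ^ h) ^ α := by
  have hε : 0 < ε := h0.trans_le h1
  set N := ⌊1 / ε⌋₊ with hN
  set N' := ⌊1 / ε'⌋₊ with hN'
  have hNN : N ≤ N' := Nat.floor_le_floor (one_div_le_one_div_of_le h0 h1)
  have hNle : (N : ℝ) ≤ 1 / ε := Nat.floor_le (by positivity)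
  have hN'le : (N' : ℝ) ≤ 1 / ε' := Nat.floor_le (by positivity)
  have hNlt : 1 / ε < N + 1 := Nat.lt_floor_add_one _
  have mem' : ∀ j : ℕ, j ≤ N' → (j : ℝ) * ε' ∈ Icc (0 : ℝ) 1 := by
    intro j hj
    refine ⟨by positivity, ?_⟩
    have : (j : ℝ) ≤ 1 / ε' := le_trans (by exact_mod_cast hj) hN'le
    rwa [le_div_iff₀ h0] at this
  have mem : ∀ j : ℕ, j ≤ N → (j : ℝ) * ε ∈ Icc (0 : ℝ) 1 := by
    intro j hj
    refine ⟨by positivity, ?_⟩
    have : (j : ℝ) ≤ 1 / ε := le_trans (by exact_mod_cast hj) hNle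
    rwa [le_div_iff₀ hε] at this
  have inc' : ∀ j : ℕ, j < N' → |f ((j + 1) * ε') - f (j * ε')| ≤ C * ε ^ h := by
    intro j hj
    have := hf _ (by simpa using mem' (j + 1) hj) _ (mem' j hj.le)
    refine this.trans ?_
    have e1 : ((j : ℝ) + 1) * ε' - j * ε' = ε' := by ring
    rw [e1, abs_of_pos h0]
    exact mul_le_mul_of_nonneg_left (Real.rpow_le_rpow h0.le h1 hh.le) hC
  have inc : ∀ j : ℕ, j < N → |f ((j + 1) * ε) - f (j * ε)| ≤ C * ε ^ h := by
    intro j hj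
    have := hf _ (by simpa using mem (j + 1) hj) _ (mem j hj.le)
    refine this.trans ?_
    have e1 : ((j : ℝ) + 1) * ε - j * ε = ε := by ring
    rw [e1, abs_of_pos hε]
  have hM : 0 ≤ C * ε ^ h := by positivity
  have split : V α f ε' - V α f ε =
      ∑ j ∈ Finset.range N, (|f ((j + 1) * ε') - f (j * ε')| ^ α -
        |f ((j + 1) * ε) - f (j * ε)| ^ α) +
      ∑ j ∈ Finset.Ico N N', |f ((j + 1) * ε') - f (j * ε')| ^ α := by
    unfold V
    rw [Finset.sum_sub_distrib, ← hN, ← hN', ← Finset.sum_range_add_sum_Ico _ hNN]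
    ring
  rw [split]
  refine (abs_add_le _ _).trans (add_le_add ?_ ?_)
  · refine (Finset.abs_sum_le_sum_abs _ _).trans ?_
    have each : ∀ j ∈ Finset.range N,
        |(|f ((j + 1) * ε') - f (j * ε')| ^ α - |f ((j + 1) * ε) - f (j * ε)| ^ α)| ≤
          α * (C * ε ^ h) ^ (α - 1) * (2 * C * ((ε - ε') / ε) ^ h) := by
      intro j hj
      have hjN := Finset.mem_range.1 hj
      refine (abs_pow_sub_le hα (abs_nonneg _) (abs_nonneg _)
        (inc' j (hjN.trans_le hNN)) (inc j hjN)).trans ?_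
      refine mul_le_mul_of_nonneg_left ?_ (by positivity)
      refine (abs_abs_sub_abs_le_abs_sub _ _).trans ?_
      have sh : ∀ i : ℕ, i ≤ N → |f (i * ε') - f (i * ε)| ≤ C * ((ε - ε') / ε) ^ h := by
        intro i hi
        refine (hf _ (mem' i (hi.trans hNN)) _ (mem i hi)).trans ?_
        refine mul_le_mul_of_nonneg_left ?_ hC
        refine Real.rpow_le_rpow (abs_nonneg _) ?_ hh.le
        have e1 : (i : ℝ) * ε' - i * ε = -(i * (ε - ε')) := by ring
        rw [e1, abs_neg, abs_of_nonneg (mul_nonneg (by positivity) (by linarith)),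
          le_div_iff₀ hε]
        have hi1 : (i : ℝ) * ε ≤ 1 := (mem i hi).2
        nlinarith [sub_nonneg.2 h1]
      have s1 := sh (j + 1) hjN
      have s2 := sh j hjN.le
      push_cast at s1
      have e2 : f ((j + 1) * ε') - f (j * ε') - (f ((j + 1) * ε) - f (j * ε)) =
          (f ((j + 1) * ε') - f ((j + 1) * ε)) - (f (j * ε') - f (j * ε)) := by ring
      rw [e2]
      refine (abs_sub _ _).trans ?_
      linarith
    refine (Finset.sum_le_sum each).trans ?_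
    rw [Finset.sum_const, Finset.card_range, nsmul_eq_mul]
    refine mul_le_mul_of_nonneg_right hNle ?_
    have : 0 ≤ (ε - ε') / ε := div_nonneg (by linarith) hε.le
    positivity
  · rw [abs_of_nonneg (Finset.sum_nonneg fun j _ => by positivity)]
    have each : ∀ j ∈ Finset.Ico N N', |f ((j + 1) * ε') - f (j * ε')| ^ α ≤ (C * ε ^ h) ^ α := by
      intro j hj
      exact Real.rpow_le_rpow (abs_nonneg _) (inc' j (Finset.mem_Ico.1 hj).2) (by linarith)
    refine (Finset.sum_le_sum each).trans ?_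
    rw [Finset.sum_const, Nat.card_Ico, nsmul_eq_mul, Nat.cast_sub hNN]
    refine mul_le_mul_of_nonneg_right ?_ (by positivity)
    linarith

/-- The grid `(n + 1)^(-c)`. -/
noncomputable def grid (c : ℝ) (n : ℕ) : ℝ := ((n : ℝ) + 1) ^ (-c)

/-- The index of the grid point just below `ε`. -/
noncomputable def idx (c ε : ℝ) : ℕ := ⌊ε ^ (-(1 / c))⌋₊

lemma grid_pos (c : ℝ) (n : ℕ) : 0 < grid c n := Real.rpow_pos_of_pos (by positivity) _

lemma grid_tendsto {c : ℝ} (hc : 0 < c) : Tendsto (grid c) atTop (𝓝 0) := by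
  have h1 : Tendsto (fun n : ℕ => (n : ℝ) + 1) atTop atTop :=
    tendsto_atTop_add_const_right _ _ tendsto_natCast_atTop_atTop
  exact (tendsto_rpow_neg_atTop hc).comp h1

lemma grid_le {c ε : ℝ} (hc : 0 < c) (hε : 0 < ε) : grid c (idx c ε) ≤ ε := by
  have h1 : ε ^ (-(1 / c)) < (idx c ε : ℝ) + 1 := Nat.lt_floor_add_one _
  have h2 : (0 : ℝ) < ε ^ (-(1 / c)) := Real.rpow_pos_of_pos hε _
  have h3 : ((idx c ε : ℝ) + 1) ^ (-c) ≤ (ε ^ (-(1 / c))) ^ (-c) :=
    Real.rpow_le_rpow_of_nonpos h2 h1.le (by linarith)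
  have h4 : (ε ^ (-(1 / c))) ^ (-c) = ε := by
    rw [← Real.rpow_mul hε.le]
    have : -(1 / c) * -c = 1 := by field_simp
    rw [this, Real.rpow_one]
  rw [h4] at h3
  exact h3

lemma sub_grid_le {c ε : ℝ} (hc : 0 < c) (hc1 : c ≤ 1) (hε : 0 < ε) :
    ε - grid c (idx c ε) ≤ ε * ε ^ (1 / c) := by
  set x := ε ^ (1 / c) with hx
  have hx0 : 0 < x := Real.rpow_pos_of_pos hε _
  have h1 : (idx c ε : ℝ) ≤ ε ^ (-(1 / c)) := Nat.floor_le (Real.rpow_nonneg hε.le _)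
  have h2 : ε ^ (-(1 / c)) = x⁻¹ := Real.rpow_neg hε.le _
  rw [h2] at h1
  have h3 : (idx c ε : ℝ) + 1 ≤ x⁻¹ * (1 + x) := by
    have : x⁻¹ * (1 + x) = x⁻¹ + 1 := by field_simp
    rw [this]; linarith
  have h4 : (x⁻¹ * (1 + x)) ^ (-c) ≤ grid c (idx c ε) :=
    Real.rpow_le_rpow_of_nonpos (by positivity) h3 (by linarith)
  have h5 : (x⁻¹ * (1 + x)) ^ (-c) = ε * (1 + x) ^ (-c) := by
    rw [Real.mul_rpow (by positivity) (by positivity), ← h2, ← Real.rpow_mul hε.le]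
    have : -(1 / c) * -c = 1 := by field_simp
    rw [this, Real.rpow_one]
  rw [h5] at h4
  have h6 : (1 + x) ^ c ≤ 1 + x := by
    calc (1 + x) ^ c ≤ (1 + x) ^ (1 : ℝ) :=
          Real.rpow_le_rpow_of_exponent_le (by linarith) hc1
      _ = 1 + x := Real.rpow_one _
  have h7 : 1 - x ≤ (1 + x) ^ (-c) := by
    rw [Real.rpow_neg (by positivity)]
    have h8 : (1 + x)⁻¹ ≤ ((1 + x) ^ c)⁻¹ :=
      inv_anti₀ (Real.rpow_pos_of_pos (by positivity) _) h6
    have h9 : 1 - x ≤ (1 + x)⁻¹ := by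
      rw [inv_eq_one_div, le_div_iff₀ (by positivity)]
      nlinarith
    linarith
  nlinarith [mul_le_mul_of_nonneg_left h7 hε.le]

lemma tendsto_pow_zero {p : ℝ} (hp : 0 < p) :
    Tendsto (fun ε : ℝ => ε ^ p) (𝓝[>] 0) (𝓝 0) := by
  have h := (Real.continuousAt_rpow_const 0 p (Or.inr hp.le)).tendsto
  rw [Real.zero_rpow hp.ne'] at h
  exact h.mono_left nhdsWithin_le_nhds

lemma diff_tendsto {α h c : ℝ} (hα : 1 ≤ α) (hh : 0 < h) (hc : 0 < c) (hc1 : c ≤ 1)
    (hch : c * (1 + h - α * h) < h) {f : ℝ → ℝ} (hf : Hol h f) :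
    Tendsto (fun ε => V α f (grid c (idx c ε)) - V α f ε) (𝓝[>] 0) (𝓝 0) := by
  obtain ⟨C₀, hC₀⟩ := hf
  set C := max C₀ 0 with hCdef
  have hC : 0 ≤ C := le_max_right _ _
  have hf : ∀ s ∈ Icc (0 : ℝ) 1, ∀ t ∈ Icc (0 : ℝ) 1, |f s - f t| ≤ C * |s - t| ^ h :=
    fun s hs t ht => (hC₀ s hs t ht).trans
      (mul_le_mul_of_nonneg_right (le_max_left _ _) (by positivity))
  have hp1 : 0 < -1 + h * (α - 1) + h * (1 / c) := by
    have : c * (1 + h - α * h) / c < h / c := by gcongr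
    have e1 : c * (1 + h - α * h) / c = 1 + h - α * h := by field_simp
    have e2 : h * (1 / c) = h / c := by ring
    rw [e1] at this
    rw [e2]
    nlinarith
  have hp2 : 0 < h * α := by positivity
  have lim : Tendsto (fun ε : ℝ => (α * C ^ (α - 1) * (2 * C)) *
      ε ^ (-1 + h * (α - 1) + h * (1 / c)) + (3 * C ^ α) * ε ^ (h * α)) (𝓝[>] 0) (𝓝 0) := by
    have := ((tendsto_pow_zero hp1).const_mul (α * C ^ (α - 1) * (2 * C))).add
      ((tendsto_pow_zero hp2).const_mul (3 * C ^ α))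
    simpa using this
  have hx : Tendsto (fun ε : ℝ => ε ^ (1 / c)) (𝓝[>] 0) (𝓝 0) :=
    tendsto_pow_zero (by positivity)
  refine squeeze_zero_norm' ?_ lim
  filter_upwards [self_mem_nhdsWithin, hx.eventually (gt_mem_nhds (show (0 : ℝ) < 1 / 2 by norm_num)),
    mem_nhdsWithin_of_mem_nhds (Iio_mem_nhds (show (0 : ℝ) < 1 by norm_num))] with ε hε hxε hε1
  have hε : 0 < ε := hε
  have hε1 : ε < 1 := hε1
  have g0 := grid_pos c (idx c ε)
  have g1 := grid_le hc hε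
  have g2 := sub_grid_le hc hc1 hε
  set ε' := grid c (idx c ε) with hε'
  have hx0 : 0 < ε ^ (1 / c) := Real.rpow_pos_of_pos hε _
  have g3 : ε ≤ 2 * ε' := by nlinarith
  have k1 : (ε - ε') / ε ≤ ε ^ (1 / c) := by
    rw [div_le_iff₀ hε]; linarith
  have k2 : ((ε - ε') / ε) ^ h ≤ ε ^ (h * (1 / c)) := by
    rw [mul_comm h, Real.rpow_mul hε.le]
    exact Real.rpow_le_rpow (div_nonneg (by linarith) hε.le) k1 hh.le
  have k3 : 1 / ε' - 1 / ε + 1 ≤ 3 := by
    have e1 : 1 / ε' - 1 / ε = (ε - ε') / (ε * ε') := by field_simp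
    have e2 : (ε - ε') / (ε * ε') ≤ 2 := by
      rw [div_le_iff₀ (by positivity)]
      have hxe : ε ^ (1 / c) ≤ ε := by
        calc ε ^ (1 / c) ≤ ε ^ (1 : ℝ) :=
              Real.rpow_le_rpow_of_exponent_ge hε hε1.le (by
                rw [le_div_iff₀ hc]; linarith)
          _ = ε := Real.rpow_one _
      nlinarith
    rw [e1]; linarith
  have m1 : (C * ε ^ h) ^ (α - 1) = C ^ (α - 1) * ε ^ (h * (α - 1)) := by
    rw [Real.mul_rpow hC (by positivity), ← Real.rpow_mul hε.le]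
  have m2 : (C * ε ^ h) ^ α = C ^ α * ε ^ (h * α) := by
    rw [Real.mul_rpow hC (by positivity), ← Real.rpow_mul hε.le]
  have main := cmp hα hh hC hf g0 g1
  rw [Real.norm_eq_abs]
  refine main.trans (add_le_add ?_ ?_)
  · rw [m1]
    have e3 : ε ^ (-1 + h * (α - 1) + h * (1 / c)) =
        1 / ε * ε ^ (h * (α - 1)) * ε ^ (h * (1 / c)) := by
      rw [Real.rpow_add hε, Real.rpow_add hε, Real.rpow_neg_one, ← one_div ε]
    rw [e3]
    calc 1 / ε * (α * (C ^ (α - 1) * ε ^ (h * (α - 1))) * (2 * C * ((ε - ε') / ε) ^ h))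
        ≤ 1 / ε * (α * (C ^ (α - 1) * ε ^ (h * (α - 1))) * (2 * C * ε ^ (h * (1 / c)))) := by
          gcongr
      _ = _ := by ring
  · rw [m2]
    calc (1 / ε' - 1 / ε + 1) * (C ^ α * ε ^ (h * α)) ≤ 3 * (C ^ α * ε ^ (h * α)) := by
          gcongr
      _ = _ := by ring

lemma idx_tendsto {c : ℝ} (hc : 0 < c) : Tendsto (idx c) (𝓝[>] 0) atTop := by
  have h1 : Tendsto (fun ε : ℝ => ε ^ (-(1 / c))) (𝓝[>] 0) atTop :=
    tendsto_rpow_neg_nhdsGT_zero (by
      have : 0 < 1 / c := by positivity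
      linarith)
  exact tendsto_nat_floor_atTop.comp h1

/-- Convergence along the grid is convergence through all reals. -/
lemma path {α h c ν : ℝ} (hα : 1 ≤ α) (hh : 0 < h) (hc : 0 < c) (hc1 : c ≤ 1)
    (hch : c * (1 + h - α * h) < h) {f : ℝ → ℝ} (hf : Hol h f)
    (hg : Tendsto (fun n => V α f (grid c n)) atTop (𝓝 ν)) :
    Tendsto (V α f) (𝓝[>] 0) (𝓝 ν) := by
  have h1 := hg.comp (idx_tendsto hc)
  have h2 := h1.sub (diff_tendsto hα hh hc hc1 hch hf)
  simpa using h2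

/-- Three equivalent forms of almost sure convergence. -/
lemma three {α h c : ℝ} (hα : 1 ≤ α) (hh : 0 < h) (hc : 0 < c) (hc1 : c ≤ 1)
    (hch : c * (1 + h - α * h) < h) {Ω : Type*} [MeasurableSpace Ω] (P : Measure Ω)
    (X : Ω → ℝ → ℝ) (hX : ∀ᵐ ω ∂P, Hol h (X ω)) (ν : ℝ) :
    List.TFAE [∀ᵐ ω ∂P, Tendsto (V α (X ω)) (𝓝[>] 0) (𝓝 ν),
      ∀ ε : ℕ → ℝ, (∀ n, 0 < ε n) → Tendsto ε atTop (𝓝 0) →
        ∀ᵐ ω ∂P, Tendsto (fun n => V α (X ω) (ε n)) atTop (𝓝 ν),
      ∀ᵐ ω ∂P, Tendsto (fun n : ℕ => V α (X ω) (((n : ℝ) + 1) ^ (-c))) atTop (𝓝 ν)] := by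
  tfae_have 1 → 2 := by
    intro h1 ε h0 hlim
    have h2 : Tendsto ε atTop (𝓝[>] 0) :=
      tendsto_nhdsWithin_iff.2 ⟨hlim, Eventually.of_forall h0⟩
    filter_upwards [h1] with ω hω
    exact hω.comp h2
  tfae_have 2 → 3 := fun h2 => h2 (grid c) (grid_pos c) (grid_tendsto hc)
  tfae_have 3 → 1 := by
    intro h3
    filter_upwards [h3, hX] with ω h1 h2
    exact path hα hh hc hc1 hch h2 h1
  tfae_finish

/-- A tail bound with exponent `p > 1`, `p > 1 / h + 1 - α`, gives almost sure convergence. -/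
lemma criterion {α h p : ℝ} (hα : 1 ≤ α) (hh : 0 < h) (hp : 1 < p) (hph : 1 + h - α * h < p * h)
    {Ω : Type*} [MeasurableSpace Ω] (P : Measure Ω) (X : Ω → ℝ → ℝ)
    (hX : ∀ᵐ ω ∂P, Hol h (X ω)) (ν : ℝ)
    (ht : ∀ δ : ℝ, 0 < δ → ∃ K : ℝ, ∀ᶠ ε in 𝓝[>] (0 : ℝ),
      P {ω | δ < |V α (X ω) ε - ν|} ≤ ENNReal.ofReal (K * ε ^ p)) :
    ∀ᵐ ω ∂P, Tendsto (V α (X ω)) (𝓝[>] 0) (𝓝 ν) := by
  -- choose `1 / p < c < 1` with `c (1 + h - α h) < h`
  obtain ⟨c, hc0, hc1, hcp, hch⟩ : ∃ c : ℝ, 0 < c ∧ c ≤ 1 ∧ 1 < c * p ∧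
      c * (1 + h - α * h) < h := by
    by_cases hB : 1 + h - α * h ≤ 0
    · exact ⟨1, one_pos, le_rfl, by linarith, by linarith⟩
    · push Not at hB
      have h1 : 1 / p < h / (1 + h - α * h) := by
        rw [div_lt_div_iff₀ (by linarith) hB]; linarith
      have h2 : 1 / p < 1 := by rw [div_lt_one (by linarith)]; exact hp
      obtain ⟨c, hc, hc'⟩ := exists_between (lt_min h2 h1)
      have h3 : 0 < 1 / p := by positivity
      refine ⟨c, h3.trans hc, (hc'.trans_le (min_le_left _ _)).le, ?_, ?_⟩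
      · rwa [div_lt_iff₀ (by linarith)] at hc
      · have := hc'.trans_le (min_le_right _ _)
        rwa [lt_div_iff₀ hB] at this
  have hgrid : Tendsto (grid c) atTop (𝓝[>] 0) :=
    tendsto_nhdsWithin_iff.2 ⟨grid_tendsto hc0, Eventually.of_forall (grid_pos c)⟩
  have hsum : ∀ K : ℝ, Summable fun n : ℕ => K * (grid c n) ^ p := by
    intro K
    apply Summable.mul_left
    have e1 : (fun n : ℕ => (grid c n) ^ p) = fun n : ℕ => 1 / (((n + 1 : ℕ) : ℝ)) ^ (c * p) := by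
      funext n
      unfold grid
      rw [← Real.rpow_mul (by positivity), neg_mul, Real.rpow_neg (by positivity), one_div]
      push_cast
      rfl
    rw [e1]
    exact (summable_nat_add_iff 1).2 (Real.summable_one_div_nat_rpow.2 hcp)
  have hae : ∀ δ : ℝ, 0 < δ → ∀ᵐ ω ∂P, ∀ᶠ n in atTop, |V α (X ω) (grid c n) - ν| ≤ δ := by
    intro δ hδ
    obtain ⟨K, hK⟩ := ht δ hδ
    obtain ⟨N, hN⟩ := eventually_atTop.1 (hgrid.eventually hK)
    set s : ℕ → Set Ω := fun n => {ω | δ < |V α (X ω) (grid c (n + N)) - ν|} with hs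
    have hfin : ∑' n, P (s n) ≠ ⊤ := by
      have h1 : ∀ n, P (s n) ≤ ENNReal.ofReal (K * (grid c (n + N)) ^ p) :=
        fun n => hN (n + N) (Nat.le_add_left _ _)
      have h2 : Summable fun n : ℕ => K * (grid c (n + N)) ^ p :=
        (summable_nat_add_iff N).2 (hsum K)
      refine ne_top_of_le_ne_top ?_ (ENNReal.tsum_le_tsum h1)
      exact h2.tsum_ofReal_ne_top
    filter_upwards [ae_eventually_notMem hfin] with ω hω
    obtain ⟨M, hM⟩ := eventually_atTop.1 hω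
    refine eventually_atTop.2 ⟨M + N, fun n hn => ?_⟩
    have h3 : ¬ δ < |V α (X ω) (grid c (n - N + N)) - ν| := hM (n - N) (by omega)
    have e2 : n - N + N = n := by omega
    rw [e2] at h3
    exact not_lt.1 h3
  have hall : ∀ᵐ ω ∂P, ∀ k : ℕ, ∀ᶠ n in atTop, |V α (X ω) (grid c n) - ν| ≤ 1 / ((k : ℝ) + 1) :=
    ae_all_iff.2 fun k => hae _ (by positivity)
  filter_upwards [hall, hX] with ω h1 h2
  refine path hα hh hc0 hc1 hch h2 (Metric.tendsto_atTop.2 fun e he => ?_)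
  obtain ⟨k, hk⟩ := exists_nat_one_div_lt he
  obtain ⟨N, hN⟩ := eventually_atTop.1 (h1 k)
  exact ⟨N, fun n hn => by rw [Real.dist_eq]; exact (hN n hn).trans_lt hk⟩

end Pool.Agent.OneSeq
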