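import Mathlib

/-!
# The variation of a function on `[0, 1]` at a scale `ε`
-/

open Set

namespace Pool.Agent.OneSeq

/-- The `α`-variation at scale `ε` of a function on `[0, 1]`: the sum of
`|f(u) - f(u - ε)|^α` over the `u = (j + 1) ε` in `[ε, 1]`. -/
noncomputable def V (α : ℝ) (f : ℝ → ℝ) (ε : ℝ) : ℝ :=
  ∑ j ∈ Finset.range ⌊1 / ε⌋₊, |f ((j + 1) * ε) - f (j * ε)| ^ α

/-- `f` is Hölder continuous with exponent `h` on `[0, 1]`. -/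
def Hol (h : ℝ) (f : ℝ → ℝ) : Prop :=
  ∃ C : ℝ, ∀ s ∈ Icc (0 : ℝ) 1, ∀ t ∈ Icc (0 : ℝ) 1, |f s - f t| ≤ C * |s - t| ^ h

end Pool.Agent.OneSeq
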